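import Pool.Agent.Helper99_DPF.FQ2

/-!
Squad DPF, row FQ1: the final inequality, case `lam - 1 ≥ h/2`.
-/

set_option maxHeartbeats 4000000

namespace Pool.Agent.DPF.H99

/-- the alternative `ω = 1` -/
theorem alt (T H l m X : ℝ) (hT : 3 ≤ T) (hH : 3 ≤ H) (hb : 0 < H + T - l) (hl : 2 ≤ l)
    (hm : 0 < m) (hml : m ≤ l) (h : (T + 1) * H * (H + T - l) ≤ (T - 1) * (H - 2) * m)
    (hX : 0 ≤ X) :
    (H + T) / (H + T - l) ≤
      l / (H + T - 1) * ((T + 1) * H / (2 * m)) * (max (1 - X) 0) ^ 2 + YQ T H l 1 X := by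
  have hL : 0 < H + T - 1 := by linarith
  have hPw : Pw T H l 1 = 1 := by
    unfold Pw
    rw [div_eq_one_iff_eq hL.ne']; ring
  have hRw : Rw T H l 1 = 1 := by
    unfold Rw
    rw [div_eq_one_iff_eq hL.ne']; ring
  have hS : Sw T H - 1 = (T - 1) * (H - 2) / (2 * (H + T - 1)) := by
    unfold Sw
    field_simp
    ring
  have hYQ : YQ T H l 1 X =
      l / (H + T - l) * (1 + (T - 1) * (H - 2) / (2 * (H + T - 1)) * X) ^ 2 := by
    unfold YQ
    rw [hPw, hRw, hS, div_one]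
  rw [hYQ]
  have hl0 : 0 < l := by linarith
  have e0 : l / (H + T - 1) * ((T + 1) * H / (2 * m)) ≤
      l / (H + T - l) * 1 * ((T - 1) * (H - 2) / (2 * (H + T - 1))) := by
    have e1 : l / (H + T - 1) * ((T + 1) * H / (2 * m)) =
        l * ((T + 1) * H * (H + T - l)) / (2 * (H + T - 1) * m * (H + T - l)) := by
      field_simp
    have e2 : l / (H + T - l) * 1 * ((T - 1) * (H - 2) / (2 * (H + T - 1))) =
        l * ((T - 1) * (H - 2) * m) / (2 * (H + T - 1) * m * (H + T - l)) := by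
      field_simp
    rw [e1, e2]
    apply div_le_div_of_nonneg_right _ (by positivity)
    exact mul_le_mul_of_nonneg_left h hl0.le
  have h2 := q2 (l / (H + T - 1) * ((T + 1) * H / (2 * m))) (l / (H + T - l)) 1
    ((T - 1) * (H - 2) / (2 * (H + T - 1))) X (by positivity) (by positivity) (by norm_num)
    (div_nonneg (mul_nonneg (by linarith) (by linarith)) (by linarith)) hX e0
  have h3 : 1 ≤ l / (H + T - 1) * ((T + 1) * H / (2 * m)) := by
    rw [div_mul_div_comm, one_le_div (by positivity)]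
    have : 2 * (H + T - 1) ≤ (T + 1) * H := by nlinarith
    nlinarith [mul_le_mul hml this (by linarith) hl0.le]
  have h4 : (H + T) / (H + T - l) = 1 + l / (H + T - l) := by
    field_simp
    ring
  rw [h4]
  nlinarith [h2, h3]

/-- case `μ ≥ 1`, `ω = μ/b` -/
theorem caseA (T H l X : ℝ) (hT : 3 ≤ T) (hH : 3 ≤ H) (hl : 2 ≤ l) (hμ : l ≤ H)
    (hp : (H + T - 1) * (H + T) * (4 * (T + 1) * (H * (H + 1 - l) + (l - 1) * (T - 1)) +
        2 * (T - 1) ^ 2 * H * (l - 1)) ≤ (T + 1) ^ 3 * H ^ 2 * l * (H + T - l)) :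
    (H + T) / (H + T - l) ≤
      l / (H + T - 1) * ((T + 1) * H / (2 * (l - 1))) * (max (1 - X) 0) ^ 2 +
        YQ T H l ((H + 1 - l) / (H + T - l)) X := by
  have hb : 0 < H + T - l := by linarith
  have hL : 0 < H + T - 1 := by linarith
  have hμ0 : 0 < H + 1 - l := by linarith
  have hl0 : 0 < l := by linarith
  have hl1 : 0 < l - 1 := by linarith
  have hZ : 0 < H * (H + 1 - l) + (l - 1) * (T - 1) := by
    have : 0 < H * (H + 1 - l) := by positivity
    have : 0 ≤ (l - 1) * (T - 1) := mul_nonneg (by linarith) (by linarith)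
    linarith
  rw [yq_mu T H l X hb hL hZ]
  have hq := q1 (l / (H + T - 1) * ((T + 1) * H / (2 * (l - 1))))
    (l * (H + T - 1) / (H * (H + 1 - l) + (l - 1) * (T - 1)))
    (H / (H + T - 1)) ((T - 1) * H / (2 * (H + T - 1))) X (by positivity) (by positivity)
    (by positivity) (div_nonneg (mul_nonneg (by linarith) (by linarith)) (by linarith))
    (by positivity)
  refine le_trans ?_ hq
  have e1 : H / (H + T - 1) + (T - 1) * H / (2 * (H + T - 1)) =
      (T + 1) * H / (2 * (H + T - 1)) := by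
    field_simp; ring
  rw [e1]
  generalize hZ' : H * (H + 1 - l) + (l - 1) * (T - 1) = Z at *
  generalize hL' : H + T - 1 = L at *
  generalize hb' : H + T - l = b at *
  generalize hlm : l - 1 = m at *
  have hQ : 0 < 4 * (T + 1) * Z + 2 * (T - 1) ^ 2 * H * m := by positivity
  have e2 : l / L * ((T + 1) * H / (2 * m)) + l * L / Z * ((T - 1) * H / (2 * L)) ^ 2 =
      l * H / (8 * L * m * Z) * (4 * (T + 1) * Z + 2 * (T - 1) ^ 2 * H * m) := by
    field_simp
    ring
  rw [e2]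
  generalize 4 * (T + 1) * Z + 2 * (T - 1) ^ 2 * H * m = Q at *
  have e3 : l / L * ((T + 1) * H / (2 * m)) * (l * L / Z) * ((T + 1) * H / (2 * L)) ^ 2 /
      (l * H / (8 * L * m * Z) * Q) = (T + 1) ^ 3 * H ^ 2 * l / (L * Q) := by
    field_simp
    ring
  rw [e3, div_le_div_iff₀ hb (by positivity)]
  nlinarith [hp]

/-- case `b ≤ t - 1`, `ω = 0` -/
theorem caseB (T H l X : ℝ) (hT : 3 ≤ T) (hH : 3 ≤ H) (hl : H + 1 ≤ l) (hb : 0 < H + T - l)
    (hp : (H + T - 1) * (H + T) * (2 * (H - 1) * ((T - 1) * (H - 2) + 2 * (H + T - l)) ^ 2 +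
        4 * (H + T - l) * (l - 1) * (T + 1) * H) ≤ (T + 1) ^ 3 * H ^ 3 * l * (H + T - l)) :
    (H + T) / (H + T - l) ≤
      l / (H + T - 1) * ((T + 1) * H / (2 * (H - 1))) * (max (1 - X) 0) ^ 2 +
        YQ T H l 0 X := by
  have hL : 0 < H + T - 1 := by linarith
  have hl0 : 0 < l := by linarith
  have hl1 : 0 < l - 1 := by linarith
  have hH1 : 0 < H - 1 := by linarith
  have hPw : Pw T H l 0 = (l - 1) / (H + T - 1) := by
    unfold Pw; ring
  have hRw : Rw T H l 0 = (l - 1) / (H + T - 1) := by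
    unfold Rw; ring
  have hS : Sw T H - (l - 1) / (H + T - 1) =
      ((T - 1) * (H - 2) + 2 * (H + T - l)) / (2 * (H + T - 1)) := by
    unfold Sw
    field_simp
    ring
  have hYQ : YQ T H l 0 X =
      (l * (H + T - 1) / ((H + T - l) * (l - 1))) * ((l - 1) / (H + T - 1) +
        ((T - 1) * (H - 2) + 2 * (H + T - l)) / (2 * (H + T - 1)) * X) ^ 2 := by
    unfold YQ
    rw [hPw, hRw, hS]
    field_simp
  rw [hYQ]
  have hTH : 0 ≤ (T - 1) * (H - 2) := mul_nonneg (by linarith) (by linarith)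
  have hq := q1 (l / (H + T - 1) * ((T + 1) * H / (2 * (H - 1))))
    (l * (H + T - 1) / ((H + T - l) * (l - 1)))
    ((l - 1) / (H + T - 1)) (((T - 1) * (H - 2) + 2 * (H + T - l)) / (2 * (H + T - 1))) X
    (by positivity) (by positivity) (by positivity) (by positivity) (by positivity)
  refine le_trans ?_ hq
  have e1 : (l - 1) / (H + T - 1) + ((T - 1) * (H - 2) + 2 * (H + T - l)) / (2 * (H + T - 1)) =
      (T + 1) * H / (2 * (H + T - 1)) := by
    field_simp; ring
  rw [e1]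
  generalize hr : (T - 1) * (H - 2) + 2 * (H + T - l) = r at *
  generalize hL' : H + T - 1 = L at *
  generalize hb' : H + T - l = b at *
  generalize hlm : l - 1 = m at *
  generalize hHm : H - 1 = m' at *
  have hr0 : 0 < r := by rw [← hr]; linarith
  have hQ : 0 < 2 * m' * r ^ 2 + 4 * b * m * (T + 1) * H := by positivity
  have e2 : l / L * ((T + 1) * H / (2 * m')) + l * L / (b * m) * (r / (2 * L)) ^ 2 =
      l / (8 * L * m * m' * b) * (2 * m' * r ^ 2 + 4 * b * m * (T + 1) * H) := by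
    field_simp
    ring
  rw [e2]
  generalize 2 * m' * r ^ 2 + 4 * b * m * (T + 1) * H = Q at *
  have e3 : l / L * ((T + 1) * H / (2 * m')) * (l * L / (b * m)) * ((T + 1) * H / (2 * L)) ^ 2 /
      (l / (8 * L * m * m' * b) * Q) = (T + 1) ^ 3 * H ^ 3 * l / (L * Q) := by
    field_simp
    ring
  rw [e3, div_le_div_iff₀ hb (by positivity)]
  nlinarith [hp]

theorem fq1 : FQ1Stmt := by
  intro t h lam ht hh hlb hl2
  have hT : (3:ℝ) ≤ t := by exact_mod_cast ht
  have hH : (3:ℝ) ≤ h := by exact_mod_cast hh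
  have hlb' : (lam:ℝ) + 1 ≤ h + t := by exact_mod_cast hlb
  have hl2' : (h:ℝ) + 2 ≤ 2 * lam := by exact_mod_cast hl2
  have hb : 0 < (h:ℝ) + t - lam := by linarith
  rcases Nat.lt_or_ge h lam with hc | hc
  · -- `lam ≥ h + 1`
    have hc' : (h:ℝ) + 1 ≤ lam := by exact_mod_cast hc
    have hmin : min ((lam:ℝ) - 1) ((h:ℝ) - 1) = (h:ℝ) - 1 := min_eq_right (by linarith)
    rw [hmin]
    by_cases hP : ((h:ℝ) + t - 1) * (h + t) * (2 * ((h:ℝ) - 1) * (((t:ℝ) - 1) * (h - 2) +
        2 * (h + t - lam)) ^ 2 + 4 * (h + t - lam) * (lam - 1) * (t + 1) * h) ≤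
        ((t:ℝ) + 1) ^ 3 * h ^ 3 * lam * (h + t - lam)
    · refine ⟨0, le_refl _, by norm_num, by linarith, ?_⟩
      intro X _
      exact caseB t h lam X hT hH hc' hb hP
    · push Not at hP
      refine ⟨1, by norm_num, le_refl _, by linarith, ?_⟩
      intro X hX
      refine alt t h lam ((h:ℝ) - 1) X hT hH hb (by linarith) (by linarith) (by linarith) ?_ hX
      by_contra hcon
      push Not at hcon
      rcases Nat.lt_or_ge (lam + 1) (h + t) with hb2 | hb2
      · -- `b ≥ 2`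
        have hb2' : (lam:ℝ) + 2 ≤ h + t := by exact_mod_cast hb2
        have hh3 : (0:ℝ) ≤ (h:ℝ) - 3 := by linarith
        have hbb : (0:ℝ) ≤ (h:ℝ) + t - lam - 2 := by linarith
        have htb : (0:ℝ) ≤ (t:ℝ) - (h + t - lam) - 1 := by linarith
        have hpoly := Pool.Agent.DPF.H59.polyIc2 t h ((h:ℝ) + t - lam) (by linarith)
          (by linarith) hH
        have hα : (0:ℝ) ≤ 68 * ((h:ℝ) - 3) + 32 * ((h:ℝ) - 3) ^ 2 + 4 * ((h:ℝ) - 3) ^ 3 +
            8 * ((h:ℝ) + t - lam - 2) * ((h:ℝ) - 3) ^ 2 +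
            2 * ((h:ℝ) + t - lam - 2) * ((h:ℝ) - 3) ^ 3 +
            16 * ((t:ℝ) - (h + t - lam) - 1) * ((h:ℝ) - 3) ^ 2 +
            2 * ((t:ℝ) - (h + t - lam) - 1) * ((h:ℝ) - 3) ^ 3 +
            2 * ((t:ℝ) - (h + t - lam) - 1) ^ 2 * ((h:ℝ) - 3) ^ 2 := by positivity
        have hlt : ((t:ℝ) - 1) * (h - 2) * (h - 1) - (h + t - lam) * (t + 1) * h < 0 := by
          nlinarith [hcon]
        have hm := mul_nonneg hα (neg_nonneg.mpr hlt.le)
        have e1 : (h:ℝ) + t - (h + t - lam) = lam := by ring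
        rw [e1] at hpoly
        nlinarith [hpoly, hm, hP]
      · -- `b = 1`
        have hb1 : (lam:ℝ) + 1 = h + t := by
          have : lam + 1 = h + t := by omega
          exact_mod_cast this
        have hlam : (lam:ℝ) = h + t - 1 := by linarith
        have hh3 : (0:ℝ) ≤ (h:ℝ) - 3 := by linarith
        have ht3 : (0:ℝ) ≤ (t:ℝ) - 3 := by linarith
        have hpoly := Pool.Agent.DPF.H59.polyIc1 t h hT hH
        have hα : (0:ℝ) ≤ 104 * ((h:ℝ) - 3) + 40 * ((h:ℝ) - 3) ^ 2 + 4 * ((h:ℝ) - 3) ^ 3 +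
            ((t:ℝ) - 3) * (50 * ((h:ℝ) - 3) + 24 * ((h:ℝ) - 3) ^ 2 + 2 * ((h:ℝ) - 3) ^ 3) +
            ((t:ℝ) - 3) ^ 2 * (14 * ((h:ℝ) - 3) + 3 * ((h:ℝ) - 3) ^ 2) +
            ((t:ℝ) - 3) ^ 3 * ((h:ℝ) - 3) := by positivity
        rw [hlam] at hcon hP
        have hlt : ((t:ℝ) - 1) * (h - 2) * (h - 1) - (t + 1) * h < 0 := by
          nlinarith [hcon]
        have hm := mul_nonneg hα (neg_nonneg.mpr hlt.le)
        nlinarith [hpoly, hm, hP]
  · -- `lam ≤ h`
    have hc' : (lam:ℝ) ≤ h := by exact_mod_cast hc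
    have hmin : min ((lam:ℝ) - 1) ((h:ℝ) - 1) = (lam:ℝ) - 1 := min_eq_left (by linarith)
    rw [hmin]
    have hl2r : (2:ℝ) ≤ lam := by linarith
    by_cases hP : ((h:ℝ) + t - 1) * (h + t) * (4 * ((t:ℝ) + 1) *
        (h * (h + 1 - lam) + (lam - 1) * (t - 1)) + 2 * ((t:ℝ) - 1) ^ 2 * h * (lam - 1)) ≤
        ((t:ℝ) + 1) ^ 3 * h ^ 2 * lam * (h + t - lam)
    · refine ⟨((h:ℝ) + 1 - lam) / (h + t - lam), ?_, ?_, ?_, ?_⟩
      · exact div_nonneg (by linarith) hb.le
      · rw [div_le_one hb]; linarith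
      · rw [mul_div_cancel₀ _ hb.ne']; linarith
      · intro X _
        exact caseA t h lam X hT hH hl2r hc' hP
    · push Not at hP
      refine ⟨1, by norm_num, le_refl _, by linarith, ?_⟩
      intro X hX
      refine alt t h lam ((lam:ℝ) - 1) X hT hH hb hl2r (by linarith) (by linarith) ?_ hX
      by_contra hcon
      push Not at hcon
      rcases Nat.lt_or_ge lam h with hm2 | hm2
      · -- `μ ≥ 2`
        have hm2' : (lam:ℝ) + 1 ≤ h := by exact_mod_cast hm2
        have hpoly := Pool.Agent.DPF.H59.polyIa2 t h ((h:ℝ) + 1 - lam) hT (by linarith)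
          (by linarith)
        have e1 : (h:ℝ) + 1 - (h + 1 - lam) = lam := by ring
        have e2 : (h:ℝ) + 1 - lam + t - 1 = h + t - lam := by ring
        have e3 : (h:ℝ) - (h + 1 - lam) = lam - 1 := by ring
        rw [e1, e2, e3] at hpoly
        have hα : (0:ℝ) ≤ 2 * ((t:ℝ) - 1) * ((h:ℝ) - 2 * (h + 1 - lam)) ^ 2 := by
          have : (0:ℝ) ≤ (t:ℝ) - 1 := by linarith
          positivity
        have hlt : ((t:ℝ) - 1) * (h - 2) * (lam - 1) - (t + 1) * h * (h + t - lam) < 0 := by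
          nlinarith [hcon]
        have hm := mul_nonneg hα (neg_nonneg.mpr hlt.le)
        nlinarith [hpoly, hm, hP]
      · -- `μ = 1`
        have hlam : (lam:ℝ) = h := by
          have : lam = h := by omega
          exact_mod_cast this
        have hpoly := Pool.Agent.DPF.H59.polyIa1 t h hT hH
        have hα : (0:ℝ) ≤ 2 * ((t:ℝ) - 1) * ((h:ℝ) - 3) ^ 2 + 4 * ((h:ℝ) - 3) := by
          have : (0:ℝ) ≤ (t:ℝ) - 1 := by linarith
          have : (0:ℝ) ≤ (h:ℝ) - 3 := by linarith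
          positivity
        rw [hlam] at hcon hP
        have hlt : ((t:ℝ) - 1) * (h - 2) * (h - 1) - (t + 1) * h * t < 0 := by
          nlinarith [hcon]
        have hm := mul_nonneg hα (neg_nonneg.mpr hlt.le)
        nlinarith [hpoly, hm, hP]

end Pool.Agent.DPF.H99
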