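import Pool.Agent.DPF.StmtsF
import Pool.Agent.Helper59_DPF.Poly

/-!
Squad DPF, row FQ2: the final inequality, case `lam - 1 < h/2`; and the two lemmas Q1, Q2 used also for FQ1.
-/

set_option maxHeartbeats 4000000

namespace Pool.Agent.DPF.H99

/-- completing the square -/
theorem q1 (σ κ P q X : ℝ) (hκ : 0 ≤ κ) (hσ : 0 ≤ σ) (hP : 0 ≤ P) (hq : 0 ≤ q)
    (hpos : 0 < σ + κ * q ^ 2) :
    σ * κ * (P + q) ^ 2 / (σ + κ * q ^ 2) ≤
      σ * (max (1 - X) 0) ^ 2 + κ * (P + q * X) ^ 2 := by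
  rw [div_le_iff₀ hpos]
  rcases le_total X 1 with h | h
  · rw [max_eq_left (by linarith)]
    nlinarith [sq_nonneg ((σ + κ * q ^ 2) * (1 - X) - κ * q * (P + q))]
  · rw [max_eq_right (by linarith)]
    have h1 : P + q ≤ P + q * X := by nlinarith
    have h2 : (P + q) ^ 2 ≤ (P + q * X) ^ 2 := by
      apply pow_le_pow_left₀ (by linarith) h1
    have h3 : σ * κ * (P + q) ^ 2 ≤ σ * κ * (P + q * X) ^ 2 :=
      mul_le_mul_of_nonneg_left h2 (mul_nonneg hσ hκ)
    have h4 : 0 ≤ κ * q ^ 2 * (κ * (P + q * X) ^ 2) := by positivity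
    nlinarith

/-- the simple case -/
theorem q2 (σ κ P q X : ℝ) (hκ : 0 ≤ κ) (hσ : 0 ≤ σ) (hP : 0 ≤ P) (hq : 0 ≤ q) (hX : 0 ≤ X)
    (h : σ ≤ κ * P * q) :
    σ + κ * P ^ 2 ≤ σ * (max (1 - X) 0) ^ 2 + κ * (P + q * X) ^ 2 := by
  rcases le_total X 1 with h1 | h1
  · rw [max_eq_left (by linarith)]
    have e1 : 0 ≤ X * (κ * P * q - σ) := mul_nonneg hX (by linarith)
    have e2 : 0 ≤ X ^ 2 * (σ + κ * q ^ 2) := by positivity
    nlinarith
  · rw [max_eq_right (by linarith)]
    have h2 : P + q ≤ P + q * X := by nlinarith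
    have h3 : (P + q) ^ 2 ≤ (P + q * X) ^ 2 := pow_le_pow_left₀ (by linarith) h2 2
    have h4 : κ * (P + q) ^ 2 ≤ κ * (P + q * X) ^ 2 := mul_le_mul_of_nonneg_left h3 hκ
    have h5 : 0 ≤ κ * q ^ 2 := by positivity
    nlinarith

/-- the numbers for `ω = μ/b` -/
theorem yq_mu (T H l X : ℝ) (hb : 0 < H + T - l) (hL : 0 < H + T - 1)
    (hZ : 0 < H * (H + 1 - l) + (l - 1) * (T - 1)) :
    YQ T H l ((H + 1 - l) / (H + T - l)) X =
      (l * (H + T - 1) / (H * (H + 1 - l) + (l - 1) * (T - 1))) *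
        (H / (H + T - 1) + ((T - 1) * H / (2 * (H + T - 1))) * X) ^ 2 := by
  have hR : Rw T H l ((H + 1 - l) / (H + T - l)) =
      (H * (H + 1 - l) + (l - 1) * (T - 1)) / ((H + T - l) * (H + T - 1)) := by
    unfold Rw
    field_simp
    ring
  have hPw : Pw T H l ((H + 1 - l) / (H + T - l)) = H / (H + T - 1) := by
    unfold Pw
    field_simp
    ring
  have hSP : Sw T H - H / (H + T - 1) = (T - 1) * H / (2 * (H + T - 1)) := by
    unfold Sw
    field_simp
    ring
  unfold YQ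
  rw [hPw, hSP, hR]
  field_simp

theorem fq2 : FQ2Stmt := by
  intro t h lam ht hh hl h2
  have hT : (3:ℝ) ≤ t := by exact_mod_cast ht
  have hH : (3:ℝ) ≤ h := by exact_mod_cast hh
  have hl' : (2:ℝ) ≤ lam := by exact_mod_cast hl
  have h2' : 2 * (lam:ℝ) ≤ h + 1 := by exact_mod_cast h2
  generalize (t:ℝ) = T at *
  generalize (h:ℝ) = H at *
  generalize (lam:ℝ) = l at *
  have hb : 0 < H + T - l := by linarith
  have hL : 0 < H + T - 1 := by linarith
  have hμ : 0 < H + 1 - l := by linarith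
  have hl0 : 0 < l := by linarith
  have hZ : 0 < H * (H + 1 - l) + (l - 1) * (T - 1) := by
    have : 0 < H * (H + 1 - l) := by positivity
    have : 0 ≤ (l - 1) * (T - 1) := mul_nonneg (by linarith) (by linarith)
    linarith
  refine ⟨(H + 1 - l) / (H + T - l), by positivity, ?_, ?_, ?_⟩
  · rw [div_le_one hb]; linarith
  · rw [mul_div_cancel₀ _ hb.ne']; linarith
  · intro X hX
    rw [yq_mu T H l X hb hL hZ]
    have hq := q1 (l / (H + T - 1) * ((T + 1) * H / (2 * (H + 1 - l))))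
      (l * (H + T - 1) / (H * (H + 1 - l) + (l - 1) * (T - 1)))
      (H / (H + T - 1)) ((T - 1) * H / (2 * (H + T - 1))) X (by positivity) (by positivity)
      (by positivity) (div_nonneg (mul_nonneg (by linarith) (by linarith)) (by linarith))
      (by positivity)
    have hp := Pool.Agent.DPF.H59.poly2 T l (H + 1 - l) hT hl' (by linarith)
    have hval : l / (H + T - 1) * ((T + 1) * H / (2 * (H + 1 - l))) *
        (l * (H + T - 1) / (H * (H + 1 - l) + (l - 1) * (T - 1))) *
        (H / (H + T - 1) + (T - 1) * H / (2 * (H + T - 1))) ^ 2 /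
        (l / (H + T - 1) * ((T + 1) * H / (2 * (H + 1 - l))) +
          l * (H + T - 1) / (H * (H + 1 - l) + (l - 1) * (T - 1)) *
            ((T - 1) * H / (2 * (H + T - 1))) ^ 2) =
        (T + 1) ^ 3 * l * H ^ 2 / (4 * ((H + T - 1) *
          ((T - 1) ^ 2 * (H + 1 - l) * H / 2 +
            (T + 1) * (H * (H + 1 - l) + (l - 1) * (T - 1))))) := by
      have e1 : H / (H + T - 1) + (T - 1) * H / (2 * (H + T - 1)) =
          (T + 1) * H / (2 * (H + T - 1)) := by
        field_simp; ring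
      rw [e1]
      generalize hZ' : H * (H + 1 - l) + (l - 1) * (T - 1) = Z at *
      generalize hμ' : H + 1 - l = μ at *
      generalize hL' : H + T - 1 = L at *
      have hQ : 0 < (T - 1) ^ 2 * μ * H / 2 + (T + 1) * Z := by positivity
      have e2 : l / L * ((T + 1) * H / (2 * μ)) + l * L / Z * ((T - 1) * H / (2 * L)) ^ 2 =
          l * H / (2 * L * μ * Z) * ((T - 1) ^ 2 * μ * H / 2 + (T + 1) * Z) := by
        field_simp
        ring
      rw [e2]
      generalize (T - 1) ^ 2 * μ * H / 2 + (T + 1) * Z = Q at *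
      field_simp
      ring
    rw [hval] at hq
    have e3 : H + 1 - l + l - 1 = H := by ring
    rw [e3] at hp
    have hQ : 0 < (T - 1) ^ 2 * (H + 1 - l) * H / 2 +
        (T + 1) * (H * (H + 1 - l) + (l - 1) * (T - 1)) := by positivity
    have hmain : (H + T) / (H + T - l) ≤
        (T + 1) * (H - 2 * (l - 1)) / (2 * (H + 1 - l)) +
          (T + 1) ^ 3 * l * H ^ 2 / (4 * ((H + T - 1) *
            ((T - 1) ^ 2 * (H + 1 - l) * H / 2 +
              (T + 1) * (H * (H + 1 - l) + (l - 1) * (T - 1))))) := by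
      generalize hQ' : (T - 1) ^ 2 * (H + 1 - l) * H / 2 +
        (T + 1) * (H * (H + 1 - l) + (l - 1) * (T - 1)) = Q at *
      rw [div_add_div _ _ (by positivity) (by positivity), div_le_div_iff₀ hb (by positivity)]
      nlinarith [hp]
    linarith
end Pool.Agent.DPF.H99
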